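import Pool.Agent.H57.STS

namespace Pool.Agent.Results.MP_bc5946_co.LimitOne

open Finset Filter Topology Pool.Agent.H57.STS

/-- points of `PG(n,2)`: nonzero vectors of `F_2^(n+1)` -/
abbrev Pt (n : ℕ) : Type := {x : Fin (n + 1) → ZMod 2 // x ≠ 0}

/-- `T` is a line of `PG(n,2)`: a triple `{x, y, x + y}` with `x ≠ y` -/
def IsLine {n : ℕ} (T : Finset (Pt n)) : Prop :=
  ∃ x y z : Pt n, x ≠ y ∧ z.1 = x.1 + y.1 ∧ ∀ w, w ∈ T ↔ w = x ∨ w = y ∨ w = z

/-- the set of all lines of `PG(n,2)` -/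
noncomputable def lines (n : ℕ) : Finset (Finset (Pt n)) :=
  (Set.toFinite {T : Finset (Pt n) | IsLine T}).toFinset

/-- the number of blocks `b_n` -/
noncomputable def b (n : ℕ) : ℝ := (2 ^ (n + 1) - 1) * (2 ^ (n + 1) - 2) / 6

/-- the ratio `μ_n` -/
noncomputable def mu (n : ℕ) : ℝ := (minDefining (lines n) : ℝ) / b n

lemma add_self' {n : ℕ} (x : Fin n → ZMod 2) : x + x = 0 := by
  funext i
  exact CharTwo.add_self_eq_zero (x i)

lemma mem_lines {n : ℕ} {T : Finset (Pt n)} :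
    T ∈ lines n ↔ ∃ x y z : Pt n, x ≠ y ∧ z.1 = x.1 + y.1 ∧ T = {x, y, z} := by
  simp only [lines, IsLine, Set.Finite.mem_toFinset, Set.mem_setOf_eq, Finset.ext_iff, mem_insert,
    mem_singleton]

lemma third_aux {n : ℕ} {u v w x y z : Fin n → ZMod 2} (hw : w = u + v) (hxy : x ≠ y)
    (hx : x = u ∨ x = v ∨ x = w) (hy : y = u ∨ y = v ∨ y = w) :
    (z = u ∨ z = v ∨ z = w) ↔ z = x ∨ z = y ∨ z = x + y := by
  have e1 : v + w = u := by rw [hw, add_comm u, ← add_assoc, add_self', zero_add]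
  have e2 : u + w = v := by rw [hw, ← add_assoc, add_self', zero_add]
  have e3 : w + v = u := by rw [add_comm, e1]
  have e4 : w + u = v := by rw [add_comm, e2]
  have e5 : u + v = w := hw.symm
  have e6 : v + u = w := by rw [add_comm, e5]
  clear hw
  rcases hx with hx | hx | hx <;> rcases hy with hy | hy | hy
  · exact absurd (hx.trans hy.symm) hxy
  · rw [hx, hy, e5]
  · rw [hx, hy, e2]; tauto
  · rw [hx, hy, e6]; tauto
  · exact absurd (hx.trans hy.symm) hxy
  · rw [hx, hy, e1]; tauto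
  · rw [hx, hy, e4]; tauto
  · rw [hx, hy, e3]; tauto
  · exact absurd (hx.trans hy.symm) hxy

lemma third {n : ℕ} {T : Finset (Pt n)} (hT : T ∈ lines n) {x y : Pt n} (hxy : x ≠ y)
    (hx : x ∈ T) (hy : y ∈ T) (z : Pt n) : z ∈ T ↔ z = x ∨ z = y ∨ z.1 = x.1 + y.1 := by
  obtain ⟨u, v, w, huv, hw, rfl⟩ := mem_lines.1 hT
  simp only [mem_insert, mem_singleton] at hx hy ⊢
  simp only [Subtype.ext_iff] at hx hy ⊢
  exact third_aux hw (fun h => hxy (Subtype.ext h)) hx hy

lemma sum_ne {n : ℕ} {x y : Pt n} (h : x ≠ y) : x.1 + y.1 ≠ 0 := fun h0 => h (Subtype.ext (by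
  have := add_self' y.1
  linear_combination (exp := 1) h0 - this))

lemma isSTS (n : ℕ) : IsSTS (lines n) := by
  refine isSTS_of (fun T hT => ?_) (fun x y hxy => ?_) (fun x y hxy T hT T' hT' hx hy hx' hy' => ?_)
  · obtain ⟨u, v, w, huv, hw, rfl⟩ := mem_lines.1 hT
    refine card_eq_three.2 ⟨u, v, w, huv, ?_, ?_, rfl⟩
    · rintro rfl
      exact v.2 (by simpa using hw)
    · rintro rfl
      exact u.2 (by simpa using hw)
  · exact ⟨{x, y, ⟨x.1 + y.1, sum_ne hxy⟩}, mem_lines.2 ⟨_, _, _, hxy, rfl, rfl⟩, by simp, by simp⟩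
  · ext z
    rw [third hT hxy hx hy, third hT' hxy hx' hy']

lemma card_lines (n : ℕ) : ((lines n).card : ℝ) = b n := by
  have h := (isSTS n).card_blocks
  have hc : Fintype.card (Pt n) + 1 = 2 ^ (n + 1) := by
    have : Fintype.card (Pt n) = 2 ^ (n + 1) - 1 := by
      simp [Pt, Fintype.card_subtype_compl, ZMod.card]
    have h2 : 0 < 2 ^ (n + 1) := by positivity
    omega
  have h1 : Fintype.card (Pt n) ≤ Fintype.card (Pt n) * Fintype.card (Pt n) := Nat.le_mul_self _
  have h3 : (6 * (lines n).card : ℝ) =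
      (Fintype.card (Pt n) : ℝ) * Fintype.card (Pt n) - Fintype.card (Pt n) := by
    exact_mod_cast h
  have h4 : (Fintype.card (Pt n) : ℝ) = 2 ^ (n + 1) - 1 := by
    have : ((Fintype.card (Pt n) + 1 : ℕ) : ℝ) = ((2 ^ (n + 1) : ℕ) : ℝ) := by rw [hc]
    push_cast at this; linarith
  rw [h4] at h3
  unfold b; linarith

lemma sparse {ε : ℝ} (hε : 0 < ε) : ∀ᶠ n in atTop, 0 < b n ∧ ∀ S, IsDefining (lines n) S →
    ((lines n).card : ℝ) - S.card ≤ ε * b n := by
  classical
  obtain ⟨N, hN⟩ := grid 2 (δ := ε / 4) (by positivity)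
  filter_upwards [eventually_ge_atTop (max N 1)] with n hn
  have hQ : (4:ℝ) ≤ 2 ^ (n + 1) := by
    have : (2:ℝ) ^ 2 ≤ 2 ^ (n + 1) := pow_le_pow_right₀ (by norm_num) (by omega)
    linarith
  refine ⟨by unfold b; exact div_pos (mul_pos (by linarith) (by linarith)) (by norm_num),
    fun S hS => ?_⟩
  by_contra hc
  push Not at hc
  let φ : Pt n × Pt n → (Fin (n + 1) → ZMod 2) × (Fin (n + 1) → ZMod 2) := fun q => (q.1.1, q.2.1)
  have hφ : Function.Injective φ := fun q q' h =>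
    Prod.ext (Subtype.ext (congrArg Prod.fst h)) (Subtype.ext (congrArg Prod.snd h))
  have hcard := (isSTS n).card_pairs (U := lines n \ S) sdiff_subset
  obtain ⟨x, y, p, ⟨i, hi⟩, hxy⟩ := hN (n + 1) (by omega)
    (((lines n \ S).biUnion offDiag).image φ) (by
      rw [card_image_of_injective _ hφ, hcard, card_sdiff_of_subset hS.1]
      push_cast [card_le_card hS.1]
      unfold b at hc
      nlinarith [mul_le_mul_of_nonneg_left (show (2:ℝ) ^ (n + 1) * 2 ^ (n + 1) / 4 ≤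
        (2 ^ (n + 1) - 1) * (2 ^ (n + 1) - 2) by nlinarith) hε.le])
  have key : ∀ s t : ZMod 2, ∃ (hx : x + s • p ≠ 0) (hy : y + t • p ≠ 0),
      x + s • p ≠ y + t • p ∧ ∃ T ∈ lines n \ S, ⟨_, hx⟩ ∈ T ∧ ⟨_, hy⟩ ∈ T := by
    intro s t
    obtain ⟨q, hq, he⟩ := mem_image.1 (hxy s t)
    obtain ⟨T, hT, hqT⟩ := mem_biUnion.1 hq
    rw [mem_offDiag] at hqT
    have e1 : q.1.1 = x + s • p := congrArg Prod.fst he
    have e2 : q.2.1 = y + t • p := congrArg Prod.snd he
    refine ⟨e1 ▸ q.1.2, e2 ▸ q.2.2, fun h => hqT.2.2 (Subtype.ext (by rw [e1, e2, h])), T, hT,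
      ?_, ?_⟩
    · convert hqT.1 using 1; exact Subtype.ext e1.symm
    · convert hqT.2.1 using 1; exact Subtype.ext e2.symm
  have hneg : ∀ s : ZMod 2, -s = s := by decide
  let base : Fin 3 → (Fin (n + 1) → ZMod 2) := ![x, y, x + y]
  have h2 : ∀ s : ZMod 2, x + y + s • p ≠ 0 := by
    intro s h
    obtain ⟨-, -, h1, -⟩ := key s 0
    apply h1
    rw [zero_smul, add_zero, ← add_zero (x + s • p), ← add_self' y, ← add_assoc,
      add_right_comm x, h, zero_add]
  have hb : ∀ (r : Fin 3) (s : ZMod 2), base r + s • p ≠ 0 := by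
    intro r s
    fin_cases r
    · exact (key s 0).1
    · exact (key 0 s).2.1
    · exact h2 s
  have hdiff : ∀ r r' : Fin 3, r < r' → ∀ s t : ZMod 2, base r + s • p ≠ base r' + t • p := by
    intro r r' hr s t h
    fin_cases r <;> fin_cases r' <;> simp at hr
    · exact (key s t).2.2.1 h
    · apply (key 0 (t - s)).2.1
      have h' : x + s • p = x + y + t • p := h
      rw [sub_smul]
      linear_combination (exp := 1) -h'
    · apply (key (t - s) 0).1
      have h' : y + s • p = x + y + t • p := h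
      rw [sub_smul]
      linear_combination (exp := 1) -h'
  let e : Fin 3 × ZMod 2 ↪ Pt n := ⟨fun a => ⟨base a.1 + a.2 • p, hb _ _⟩, by
    rintro ⟨r, s⟩ ⟨r', t⟩ h
    have h' : base r + s • p = base r' + t • p := congrArg Subtype.val h
    rcases lt_trichotomy r r' with hr | rfl | hr
    · exact absurd h' (hdiff _ _ hr _ _)
    · have := congrFun (add_left_cancel h') i
      simp only [Pi.smul_apply, hi, smul_eq_mul, mul_one] at this
      rw [this]
    · exact absurd h'.symm (hdiff _ _ hr _ _)⟩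
  refine not_defining_of_trade trade2 (isSTS n) hS e fun T hT => ?_
  obtain ⟨⟨s, t⟩, -, rfl⟩ := mem_image.1 hT
  obtain ⟨hx, hy, hne, T, hT, hxT, hyT⟩ := key s t
  have hne' : (⟨_, hx⟩ : Pt n) ≠ ⟨_, hy⟩ := fun h => hne (congrArg Subtype.val h)
  convert hT using 1
  ext z
  rw [third (mem_sdiff.1 hT).1 hne' hxT hyT]
  simp only [map_insert, map_singleton, mem_insert, mem_singleton, Subtype.ext_iff]
  have e3 : (e (2, 0 - s - t)).1 = x + s • p + (y + t • p) := by
    change x + y + (0 - s - t) • p = _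
    rw [sub_eq_add_neg, hneg t, zero_sub, hneg s, add_smul]
    abel
  rw [e3]
  rfl

theorem result : (∀ n, IsSTS (lines n) ∧ ((lines n).card : ℝ) = b n) ∧
    Tendsto mu atTop (𝓝 1) :=
  ⟨fun n => ⟨isSTS n, card_lines n⟩,
    tendsto_of_sparse Pt lines isSTS b card_lines fun _ hε => sparse hε⟩

end Pool.Agent.Results.MP_bc5946_co.LimitOne
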